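import Pool.Agent.TH578.BE.Log

set_option autoImplicit false

/-!
# Billiards in convex polygons: no eigenfunctions of small directional modulus

Let `P` be a convex polygon and `f` a measurable function on the states (position, direction) which
is multiplied by `exp (i ω s)` under free motion for the time `s` and by the unimodular number
`χ i` at each reflection in side `i`. Let `D h` be the integral over the phase space of the change
of `f` if all directions are turned by the angle `h`. If `ω ≠ 0` and `f` is not zero almost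
everywhere, then `D h ≥ c h log (1 / h)` for some `c > 0` and all small `h > 0` (`Rough p f`). If
some angle of `P` is not a rational multiple of `π`, the same holds if all `χ i = ± 1`, not all `1`.
If `D h ≤ C h` (finite directional variation), then `f` depends only on the direction if `ω = 0`,
and if some angle of `P` is not a rational multiple of `π`, then `f` is constant, and zero unless
`ω = 0` and all `χ i = 1`. With all `χ i = 1` this is weak mixing of the billiard flow in the class
of functions of finite directional variation; `ω = 0` and all `χ i` equal is the case of the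
collision map.
-/

namespace Pool.Agent.Results.MP_7bc51d_an.NoEigenfunctions

open Pool.Agent.W780 Pool.Agent.W780.BB Pool.Agent.W780.PG MeasureTheory Pool.Agent.TH578.BE

open scoped Real

theorem result {n : ℕ} {p : Fin (n + 3) → ℂ} (hp : IsConvexPolygon p) (ω : ℝ)
    (χ : Fin (n + 3) → ℂ) (hχ : ∀ i, ‖χ i‖ = 1) (f : ℂ × ℝ → ℂ) (hf : Measurable f)
    (hE : IsEigenfunction p ω χ f) :
    (¬ Rough p f → (ω ≠ 0 → ∀ᵐ x : ℂ × ℝ, x ∈ phase p → f x = 0) ∧
      ((∃ i, Irrational (ang p i / π)) → (∀ i, χ i = 1 ∨ χ i = -1) → (∃ i, χ i ≠ 1) →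
        ∀ᵐ x : ℂ × ℝ, x ∈ phase p → f x = 0)) ∧
    (FiniteVariation p f → ¬ Rough p f ∧
      (ω = 0 → ∃ g : ℝ → ℂ, Measurable g ∧ ∀ᵐ x : ℂ × ℝ, x ∈ phase p → f x = g x.2) ∧
      ((∃ i, Irrational (ang p i / π)) →
        ∃ c : ℂ, (∀ᵐ x : ℂ × ℝ, x ∈ phase p → f x = c) ∧ (c ≠ 0 → ω = 0 ∧ ∀ i, χ i = 1))) := by
  refine ⟨fun hR => ⟨(final_log hp ω χ hχ f hf hE hR).1, fun hirr hpm hne => ?_⟩,
    fun hV => ⟨fv_not_rough hV, (final hp ω χ hχ f hf hE hV).2⟩⟩
  obtain ⟨c, hc, h0⟩ := (final_log hp ω χ hχ f hf hE hR).2.2 hirr hpm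
  obtain ⟨i, hi⟩ := hne
  have hc0 : c = 0 := by
    by_contra h
    exact hi ((h0 h).2 i)
  rw [hc0] at hc
  exact hc

end Pool.Agent.Results.MP_7bc51d_an.NoEigenfunctions
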