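import Pool.Agent.TH225.BL.Slow

set_option autoImplicit false

/-!
# Billiards in convex polygons are ergodic for sets of slow directional perimeter

Let `P` be a convex polygon and let `A` be a measurable set of states (position, direction) which is
invariant under the billiard flow. Let `ω h` be the measure of the set of states whose membership in
`A` changes when the direction is turned by `h`. If the lower limit of `ω h / (h log (1 / h))` as
`h` tends to `0` is `0`, then `A` depends, up to a null set, only on the direction. All such sets
are null or conull if and only if some angle of `P` is not a rational multiple of `π`.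
-/

namespace Pool.Agent.Results.MP_7bc51d_an.SlowPerimeter

open Pool.Agent.W780 Pool.Agent.W780.BB Pool.Agent.W780.PG Pool.Agent.TH225.BL MeasureTheory

open scoped Real

theorem result {n : ℕ} {p : Fin (n + 3) → ℂ} (hp : IsConvexPolygon p) :
    (∀ A : Set (ℂ × ℝ), MeasurableSet A → IsInvariant p A → SlowPerimeter p A →
      ∃ Θ : Set ℝ, MeasurableSet Θ ∧
        volume {x : ℂ × ℝ | x ∈ phase p ∧ ¬ (x ∈ A ↔ x.2 ∈ Θ)} = 0) ∧
    ((∃ i, Irrational (ang p i / π)) ↔
      ∀ A : Set (ℂ × ℝ), MeasurableSet A → IsInvariant p A → SlowPerimeter p A →
        IsTrivial p A) :=
  slow_main hp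

end Pool.Agent.Results.MP_7bc51d_an.SlowPerimeter
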