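import Pool.Agent.TH103.BL.Fun

set_option autoImplicit false

/-!
# Billiards in almost every convex polygon: invariant functions with limits at the vertices

Let no angle of the convex polygon `P` be a rational multiple of `π`; this holds for almost every
polygon. Let `f` be a measurable function of the state which is invariant under the billiard flow.
Suppose that at every vertex `v` the function `f (z, θ)` has one-sided limits as the position `z`
tends to `v` (one from each side of the line through `v` in the direction `θ`), uniformly in the
direction `θ` up to null sets, the limits being arbitrary measurable functions of the direction.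
Then `f` is constant almost everywhere.
-/

namespace Pool.Agent.Results.MP_7bc51d_an.VertexLimitFunctions

open Pool.Agent.W780 Pool.Agent.W780.BB Pool.Agent.W780.PG MeasureTheory Pool.Agent.TH103.BL

open scoped Real

theorem result (n : ℕ) :
    (∀ᵐ p : Fin (n + 3) → ℂ, IsConvexPolygon p → ∀ i, Irrational (ang p i / π)) ∧
    ∀ p : Fin (n + 3) → ℂ, IsConvexPolygon p → (∀ i, Irrational (ang p i / π)) →
      ∀ f : ℂ × ℝ → ℝ, Measurable f → IsInvariantFun p f → HasSidedLimits p f →
        ∃ c : ℝ, ∀ᵐ x : ℂ × ℝ, x.1 ∈ region p → f x = c :=
  ⟨ae_irrational n, fun _ hp hirr _ hf hI hV =>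
    const_of_limits hp hirr hf hI (vertex_of_sided hp hI hV)⟩

end Pool.Agent.Results.MP_7bc51d_an.VertexLimitFunctions
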