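import Pool.Agent.TH103.BL.Fin

set_option autoImplicit false

/-!
# Billiards in convex polygons: ergodicity is decided at the vertices

An invariant set is called tame at the vertices if near each vertex `v` membership of the state
`(z, θ)` depends, up to null sets, only on the direction `θ` and on the side on which `z` lies of the
line through `v` in the direction `θ`. In every convex polygon such invariant sets depend only on
the direction. They are all null or conull if and only if some angle is not a rational multiple of
`π`, and then the billiard is ergodic if and only if every invariant set is tame at the vertices.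
-/

namespace Pool.Agent.Results.MP_7bc51d_an.VertexTameSets

open Pool.Agent.W780 Pool.Agent.W780.BB Pool.Agent.W780.PG MeasureTheory Pool.Agent.TH103.BL

open scoped Real

theorem result {n : ℕ} {p : Fin (n + 3) → ℂ} (hp : IsConvexPolygon p) :
    (∀ A : Set (ℂ × ℝ), MeasurableSet A → IsInvariant p A → IsVertexTame p A →
      ∃ Θ : Set ℝ, MeasurableSet Θ ∧
        volume {x : ℂ × ℝ | x ∈ phase p ∧ ¬ (x ∈ A ↔ x.2 ∈ Θ)} = 0) ∧
    ((∃ i, Irrational (ang p i / π)) ↔
      ∀ A : Set (ℂ × ℝ), MeasurableSet A → IsInvariant p A → IsVertexTame p A →
        IsTrivial p A) ∧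
    ((∃ i, Irrational (ang p i / π)) →
      ((∀ A : Set (ℂ × ℝ), MeasurableSet A → IsInvariant p A → IsTrivial p A) ↔
        ∀ A : Set (ℂ × ℝ), MeasurableSet A → IsInvariant p A → IsVertexTame p A)) :=
  final_sets hp

end Pool.Agent.Results.MP_7bc51d_an.VertexTameSets
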